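import Pool.Agent.Helper28.T3.StA

/-! ARI: the function RR e is the divisor sum of the Jacobi symbol. -/

set_option autoImplicit false

namespace Pool.Agent.Helper77.T3

open Pool.Agent.Helper28.T3

private noncomputable def chiA (D : ℕ) : ArithmeticFunction ℤ :=
  ⟨fun d => if d = 0 then 0 else jacobiSym (d : ℤ) D, by simp⟩

private theorem chiA_apply (D d : ℕ) (hd : d ≠ 0) : chiA D d = jacobiSym (d : ℤ) D := by
  show (if d = 0 then (0 : ℤ) else jacobiSym (d : ℤ) D) = _
  rw [if_neg hd]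

private theorem chiA_mul (D : ℕ) : (chiA D).IsMultiplicative := by
  refine ⟨by rw [chiA_apply D 1 one_ne_zero]; simp, fun {m n} _ => ?_⟩
  rcases eq_or_ne m 0 with rfl | hm
  · simp
  rcases eq_or_ne n 0 with rfl | hn
  · simp
  rw [chiA_apply D _ (mul_ne_zero hm hn), chiA_apply D _ hm, chiA_apply D _ hn, Nat.cast_mul,
    jacobiSym.mul_left]

private theorem sum_eq (D n : ℕ) (_hn : n ≠ 0) :
    ∑ d ∈ n.divisors, jacobiSym (d : ℤ) D = ((ArithmeticFunction.zeta : ArithmeticFunction ℤ) * chiA D) n := by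
  rw [ArithmeticFunction.coe_zeta_mul_apply]
  refine Finset.sum_congr rfl fun d hd => ?_
  rw [chiA_apply D d]
  rintro rfl
  simp at hd

private theorem sum_mul (D m n : ℕ) (hm : m ≠ 0) (hn : n ≠ 0) (h : Nat.Coprime m n) :
    ∑ d ∈ (m * n).divisors, jacobiSym (d : ℤ) D =
      (∑ d ∈ m.divisors, jacobiSym (d : ℤ) D) * ∑ d ∈ n.divisors, jacobiSym (d : ℤ) D := by
  rw [sum_eq D _ (mul_ne_zero hm hn), sum_eq D _ hm, sum_eq D _ hn]
  exact (ArithmeticFunction.isMultiplicative_zeta.natCast.mul (chiA_mul D)).map_mul_of_coprime h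

private theorem geo (x : ℤ) (g : ℕ → ℤ) (h0 : g 0 = 1) (hg : ∀ j, g (j + 1) = x ^ j + x ^ (j + 1)) :
    ∀ m : ℕ, ∑ i ∈ Finset.range (m / 2 + 1), g (m - 2 * i) = ∑ i ∈ Finset.range (m + 1), x ^ i
  | 0 => by simp [h0]
  | 1 => by simp [hg 0, Finset.sum_range_succ]
  | m + 2 => by
    have h1 : (m + 2) / 2 + 1 = (m / 2 + 1) + 1 := by omega
    rw [h1, Finset.sum_range_succ']
    have h2 : ∑ k ∈ Finset.range (m / 2 + 1), g (m + 2 - 2 * (k + 1)) =
        ∑ i ∈ Finset.range (m / 2 + 1), g (m - 2 * i) := by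
      refine Finset.sum_congr rfl fun i _ => ?_
      congr 1
      omega
    rw [h2, geo x g h0 hg m]
    have h3 : g (m + 2 - 2 * 0) = x ^ (m + 1) + x ^ (m + 2) := hg (m + 1)
    rw [h3, Finset.sum_range_succ _ (m + 2), Finset.sum_range_succ _ (m + 1)]
    ring

private theorem RR_pow (e : ℤ) (p m : ℕ) (hp : p.Prime) :
    RR e (p ^ m) = ∑ i ∈ Finset.range (m / 2 + 1), rr e (p ^ (m - 2 * i)) := by
  unfold RR
  have hset : (Finset.Icc 1 (p ^ m)).filter (fun k => k ^ 2 ∣ p ^ m) =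
      (Finset.range (m / 2 + 1)).image (fun i => p ^ i) := by
    ext k
    simp only [Finset.mem_filter, Finset.mem_Icc, Finset.mem_image, Finset.mem_range]
    constructor
    · rintro ⟨-, hk⟩
      obtain ⟨i, -, rfl⟩ := (Nat.dvd_prime_pow hp).1 ((dvd_pow_self k two_ne_zero).trans hk)
      rw [← pow_mul, Nat.pow_dvd_pow_iff_le_right hp.one_lt] at hk
      exact ⟨i, by omega, rfl⟩
    · rintro ⟨i, hi, rfl⟩
      refine ⟨⟨Nat.one_le_pow _ _ hp.pos, Nat.pow_le_pow_right hp.pos (by omega)⟩, ?_⟩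
      rw [← pow_mul]
      exact pow_dvd_pow p (by omega)
  rw [hset, Finset.sum_image fun i _ j _ h => Nat.pow_right_injective hp.two_le h]
  refine Finset.sum_congr rfl fun i hi => ?_
  rw [Finset.mem_range] at hi
  congr 1
  rw [← pow_mul, Nat.pow_div (by omega) hp.pos, mul_comm]

theorem hARI : StRPP → StMUL → StARI := by
  intro hRPP hMUL D e n hD he
  induction n using Nat.recOnPosPrimePosCoprime with
  | zero => intro h; omega
  | one =>
    intro _
    rw [(hMUL e).2.1]
    simp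
  | prime_pow p m hp hm =>
    intro _
    rw [RR_pow e p m hp, Nat.sum_divisors_prime_pow hp]
    push_cast
    have hx : ∀ i : ℕ, jacobiSym ((p : ℤ) ^ i) D = jacobiSym (p : ℤ) D ^ i := fun i => jacobiSym.pow_left _ _ _
    simp only [hx]
    refine geo (jacobiSym (p : ℤ) D) (fun j => (rr e (p ^ j) : ℤ)) (by simp [(hMUL e).1]) (fun j => ?_) m
    have h1 := hRPP D e p (j + 1) hD he hp (by omega)
    by_cases hpD : p ∣ D
    · have hx0 : jacobiSym (p : ℤ) D = 0 := by
        have : NeZero D := ⟨hD.ne_zero⟩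
        rw [jacobiSym.eq_zero_iff_not_coprime, Int.gcd_natCast_natCast, Nat.gcd_eq_left hpD]
        exact hp.one_lt.ne'
      rw [hx0]
      rcases Nat.eq_zero_or_pos j with rfl | hj
      · simp [(h1.2 hpD).1]
      · simp [(h1.2 hpD).2 (by omega), hj.ne']
    · show (rr e (p ^ (j + 1)) : ℤ) = _
      rw [h1.1 hpD]
      have hx0 : jacobiSym (p : ℤ) D ≠ 0 := by
        have : NeZero D := ⟨hD.ne_zero⟩
        rw [Ne, jacobiSym.eq_zero_iff_not_coprime, Int.gcd_natCast_natCast, not_not]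
        exact (Nat.Prime.coprime_iff_not_dvd hp).2 hpD
      rcases jacobiSym.trichotomy (p : ℤ) D with h | h | h
      · exact absurd h hx0
      · rw [h]; simp
      · rw [h, pow_succ]; ring
  | coprime a b ha hb hab iha ihb =>
    intro _
    rw [(hMUL e).2.2 a b (by omega) (by omega) hab, sum_mul D a b (by omega) (by omega) hab,
      ← iha (by omega), ← ihb (by omega)]
    push_cast
    ring

end Pool.Agent.Helper77.T3
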